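import Mathlib

set_option autoImplicit false

/-!
# The canonical theorem for finite unions (Taylor), from homogeneous equality patterns

`f` is a function on the finite subsets of `ℕ`. Suppose that for sequences `φ` of `K` blocks the equalities
`f (⋃ φ_l, l ∈ S) = f (⋃ φ_l, l ∈ T)` do not depend on `φ` (`Hom`). Then `f` is of one of five types.
-/

namespace Pool.Agent.Run7.h429.TG

open Finset

variable {A : Type*}

/-- increasing nonempty blocks -/
def IsB (φ : ℕ → Finset ℕ) : Prop :=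
  (∀ l, (φ l).Nonempty) ∧ ∀ l l', l < l' → ∀ i ∈ φ l, ∀ j ∈ φ l', i < j

/-- the equality patterns of `f` on the unions of `K` blocks below `N` do not depend on the blocks -/
def Hom (K N : ℕ) (f : Finset ℕ → A) : Prop :=
  ∀ φ φ' : ℕ → Finset ℕ, IsB φ → IsB φ' → (∀ l < K, φ l ⊆ range N) → (∀ l < K, φ' l ⊆ range N) →
    ∀ S T : Finset ℕ, S.Nonempty → T.Nonempty → S ⊆ range K → T ⊆ range K →
      f (S.biUnion φ) = f (T.biUnion φ) → f (S.biUnion φ') = f (T.biUnion φ')

def Lt (X Y : Finset ℕ) : Prop := ∀ i ∈ X, ∀ j ∈ Y, i < j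

section

variable {m : ℕ} {f : Finset ℕ → A}

/-- three blocks followed by singletons -/
def b3 (m : ℕ) (X Y Z : Finset ℕ) (l : ℕ) : Finset ℕ :=
  if l = 0 then X else if l = 1 then Y else if l = 2 then Z else {m + 2 + l}

theorem b3_isB {X Y Z : Finset ℕ} (hX : X.Nonempty) (hY : Y.Nonempty) (hZ : Z.Nonempty)
    (hXY : Lt X Y) (hYZ : Lt Y Z) (bX : X ⊆ range (m + 2)) (bY : Y ⊆ range (m + 2))
    (bZ : Z ⊆ range (m + 5)) : IsB (b3 m X Y Z) := by
  have hXZ : Lt X Z := by
    intro i hi j hj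
    obtain ⟨y, hy⟩ := hY
    exact (hXY i hi y hy).trans (hYZ y hy j hj)
  refine ⟨fun l => ?_, fun l l' hll i hi j hj => ?_⟩
  · unfold b3
    split_ifs
    · exact hX
    · exact hY
    · exact hZ
    · exact singleton_nonempty _
  · unfold b3 at hi hj
    split_ifs at hi hj with h1 h2 h3 h4 h5 h6 h7 h8 h9 h10 h11 h12
    all_goals first
      | omega
      | exact hXY i hi j hj
      | exact hXZ i hi j hj
      | exact hYZ i hi j hj
      | (rw [mem_singleton] at hj
         have := mem_range.1 (bX hi)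
         omega)
      | (rw [mem_singleton] at hj
         have := mem_range.1 (bY hi)
         omega)
      | (rw [mem_singleton] at hj
         have := mem_range.1 (bZ hi)
         omega)
      | (rw [mem_singleton] at hi hj
         omega)

theorem b3_bound {X Y Z : Finset ℕ} (bX : X ⊆ range (m + 2)) (bY : Y ⊆ range (m + 2))
    (bZ : Z ⊆ range (m + 5)) : ∀ l < m + 3, b3 m X Y Z l ⊆ range (2 * m + 8) := by
  intro l hl x hx
  unfold b3 at hx
  rw [mem_range]
  split_ifs at hx
  · have := mem_range.1 (bX hx)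
    omega
  · have := mem_range.1 (bY hx)
    omega
  · have := mem_range.1 (bZ hx)
    omega
  · rw [mem_singleton] at hx
    omega

/-- transfer between two triples of blocks -/
theorem tri (hH : Hom (m + 3) (2 * m + 8) f) {X Y Z X' Y' Z' : Finset ℕ}
    (hX : X.Nonempty) (hY : Y.Nonempty) (hZ : Z.Nonempty)
    (hXY : Lt X Y) (hYZ : Lt Y Z) (bX : X ⊆ range (m + 2)) (bY : Y ⊆ range (m + 2))
    (bZ : Z ⊆ range (m + 5))
    (hX' : X'.Nonempty) (hY' : Y'.Nonempty) (hZ' : Z'.Nonempty)
    (hXY' : Lt X' Y') (hYZ' : Lt Y' Z') (bX' : X' ⊆ range (m + 2)) (bY' : Y' ⊆ range (m + 2))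
    (bZ' : Z' ⊆ range (m + 5)) (S T : Finset ℕ) (hS : S.Nonempty) (hT : T.Nonempty)
    (hS3 : S ⊆ range 3) (hT3 : T ⊆ range 3)
    (h : f (S.biUnion (b3 m X Y Z)) = f (T.biUnion (b3 m X Y Z))) :
    f (S.biUnion (b3 m X' Y' Z')) = f (T.biUnion (b3 m X' Y' Z')) := by
  have h3 : range 3 ⊆ range (m + 3) := range_subset_range.2 (by omega)
  exact hH _ _ (b3_isB hX hY hZ hXY hYZ bX bY bZ) (b3_isB hX' hY' hZ' hXY' hYZ' bX' bY' bZ')
    (b3_bound bX bY bZ) (b3_bound bX' bY' bZ') S T hS hT (hS3.trans h3) (hT3.trans h3) h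

theorem lt_last {Y : Finset ℕ} (bY : Y ⊆ range (m + 2)) : Lt Y {m + 4} := by
  intro i hi j hj
  rw [mem_singleton] at hj
  have := mem_range.1 (bY hi)
  omega

theorem last_sub : ({m + 4} : Finset ℕ) ⊆ range (m + 5) := by
  intro x hx
  rw [mem_singleton] at hx
  rw [mem_range]
  omega

/-- type `a` : `f X = f (X ∪ Y)` -/
theorem all_a (hH : Hom (m + 3) (2 * m + 8) f) {X Y X' Y' : Finset ℕ}
    (hX : X.Nonempty) (hY : Y.Nonempty) (hXY : Lt X Y) (bX : X ⊆ range (m + 2))
    (bY : Y ⊆ range (m + 2)) (hX' : X'.Nonempty) (hY' : Y'.Nonempty) (hXY' : Lt X' Y')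
    (bX' : X' ⊆ range (m + 2)) (bY' : Y' ⊆ range (m + 2)) (h : f X = f (X ∪ Y)) :
    f X' = f (X' ∪ Y') := by
  have := tri hH hX hY (singleton_nonempty (m + 4)) hXY (lt_last bY) bX bY last_sub hX' hY'
    (singleton_nonempty (m + 4)) hXY' (lt_last bY') bX' bY' last_sub {0} {0, 1} (by simp) (by simp)
    (by decide) (by decide) (by simpa [b3] using h)
  simpa [b3] using this

/-- type `b` : `f Y = f (X ∪ Y)` -/
theorem all_b (hH : Hom (m + 3) (2 * m + 8) f) {X Y X' Y' : Finset ℕ}
    (hX : X.Nonempty) (hY : Y.Nonempty) (hXY : Lt X Y) (bX : X ⊆ range (m + 2))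
    (bY : Y ⊆ range (m + 2)) (hX' : X'.Nonempty) (hY' : Y'.Nonempty) (hXY' : Lt X' Y')
    (bX' : X' ⊆ range (m + 2)) (bY' : Y' ⊆ range (m + 2)) (h : f Y = f (X ∪ Y)) :
    f Y' = f (X' ∪ Y') := by
  have := tri hH hX hY (singleton_nonempty (m + 4)) hXY (lt_last bY) bX bY last_sub hX' hY'
    (singleton_nonempty (m + 4)) hXY' (lt_last bY') bX' bY' last_sub {1} {0, 1} (by simp) (by simp)
    (by decide) (by decide) (by simpa [b3] using h)
  simpa [b3] using this

/-- type `c` : `f (X ∪ Z) = f (X ∪ (Y ∪ Z))` -/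
theorem all_c (hH : Hom (m + 3) (2 * m + 8) f) {X Y Z X' Y' Z' : Finset ℕ}
    (hX : X.Nonempty) (hY : Y.Nonempty) (hZ : Z.Nonempty)
    (hXY : Lt X Y) (hYZ : Lt Y Z) (bX : X ⊆ range (m + 2)) (bY : Y ⊆ range (m + 2))
    (bZ : Z ⊆ range (m + 2))
    (hX' : X'.Nonempty) (hY' : Y'.Nonempty) (hZ' : Z'.Nonempty)
    (hXY' : Lt X' Y') (hYZ' : Lt Y' Z') (bX' : X' ⊆ range (m + 2)) (bY' : Y' ⊆ range (m + 2))
    (bZ' : Z' ⊆ range (m + 2)) (h : f (X ∪ Z) = f (X ∪ (Y ∪ Z))) :
    f (X' ∪ Z') = f (X' ∪ (Y' ∪ Z')) := by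
  have h5 : range (m + 2) ⊆ range (m + 5) := range_subset_range.2 (by omega)
  have := tri hH hX hY hZ hXY hYZ bX bY (bZ.trans h5) hX' hY' hZ' hXY' hYZ' bX' bY' (bZ'.trans h5)
    {0, 2} {0, 1, 2} (by simp) (by simp) (by decide) (by decide) (by simpa [b3] using h)
  simpa [b3] using this

/-- the singletons, with one place left out after `j` -/
def s0 (j l : ℕ) : Finset ℕ := if l ≤ j then {l} else {l + 1}

/-- the same with the block `{j, j + 1}` -/
def s1 (j l : ℕ) : Finset ℕ := if l < j then {l} else if l = j then {j, j + 1} else {l + 1}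

/-- the singletons, with the place `j` left out -/
def s2 (j l : ℕ) : Finset ℕ := if l < j then {l} else {l + 1}

theorem id_isB : IsB (fun l => {l}) :=
  ⟨fun l => singleton_nonempty l, fun l l' hll i hi j hj => by
    rw [mem_singleton] at hi hj
    omega⟩

theorem s0_isB (k : ℕ) : IsB (s0 k) := by
  refine ⟨fun l => ?_, fun l l' hll i hi j hj => ?_⟩
  · unfold s0
    split_ifs <;> exact singleton_nonempty _
  · unfold s0 at hi hj
    split_ifs at hi hj <;> rw [mem_singleton] at hi hj <;> omega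

theorem s2_isB (k : ℕ) : IsB (s2 k) := by
  refine ⟨fun l => ?_, fun l l' hll i hi j hj => ?_⟩
  · unfold s2
    split_ifs <;> exact singleton_nonempty _
  · unfold s2 at hi hj
    split_ifs at hi hj <;> rw [mem_singleton] at hi hj <;> omega

theorem s1_isB (k : ℕ) : IsB (s1 k) := by
  refine ⟨fun l => ?_, fun l l' hll i hi j hj => ?_⟩
  · unfold s1
    split_ifs
    · exact singleton_nonempty _
    · exact insert_nonempty _ _
    · exact singleton_nonempty _
  · unfold s1 at hi hj
    split_ifs at hi hj <;> simp only [mem_singleton, mem_insert] at hi hj <;> omega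

theorem s_bound (k : ℕ) : (∀ l < m + 3, ({l} : Finset ℕ) ⊆ range (2 * m + 8)) ∧
    (∀ l < m + 3, k < m + 3 → s0 k l ⊆ range (2 * m + 8)) ∧
    (∀ l < m + 3, k < m + 3 → s1 k l ⊆ range (2 * m + 8)) ∧
    (∀ l < m + 3, k < m + 3 → s2 k l ⊆ range (2 * m + 8)) := by
  refine ⟨fun l hl x hx => ?_, fun l hl hk x hx => ?_, fun l hl hk x hx => ?_,
    fun l hl hk x hx => ?_⟩
  · rw [mem_singleton] at hx
    rw [mem_range]
    omega
  · unfold s0 at hx
    rw [mem_range]
    split_ifs at hx <;> rw [mem_singleton] at hx <;> omega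
  · unfold s1 at hx
    rw [mem_range]
    split_ifs at hx <;> simp only [mem_singleton, mem_insert] at hx <;> omega
  · unfold s2 at hx
    rw [mem_range]
    split_ifs at hx <;> rw [mem_singleton] at hx <;> omega

/-- transfer of an equality between subsets of `range m` -/
theorem mv (hH : Hom (m + 3) (2 * m + 8) f) {I J : Finset ℕ} (hI : I.Nonempty) (hJ : J.Nonempty)
    (bI : I ⊆ range m) (bJ : J ⊆ range m) (h : f I = f J) {φ : ℕ → Finset ℕ} (hφ : IsB φ)
    (bφ : ∀ l < m + 3, φ l ⊆ range (2 * m + 8)) : f (I.biUnion φ) = f (J.biUnion φ) := by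
  have h3 : range m ⊆ range (m + 3) := range_subset_range.2 (by omega)
  refine hH _ _ id_isB hφ (s_bound 0).1 bφ I J hI hJ (bI.trans h3) (bJ.trans h3) ?_
  rwa [biUnion_singleton_eq_self, biUnion_singleton_eq_self]

theorem s01_of_notMem {I : Finset ℕ} {j : ℕ} (hj : j ∉ I) : I.biUnion (s0 j) = I.biUnion (s1 j) := by
  refine biUnion_congr rfl fun l hl => ?_
  have : l ≠ j := fun h => hj (h ▸ hl)
  unfold s0 s1
  split_ifs <;> first | rfl | omega

theorem s21_of_notMem {I : Finset ℕ} {j : ℕ} (hj : j ∉ I) : I.biUnion (s2 j) = I.biUnion (s1 j) := by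
  refine biUnion_congr rfl fun l hl => ?_
  have : l ≠ j := fun h => hj (h ▸ hl)
  unfold s2 s1
  split_ifs <;> rfl

/-- a set `J` with an element `j` that `I` does not have: right insertion -/
theorem right (hH : Hom (m + 3) (2 * m + 8) f) {I J : Finset ℕ} (hI : I.Nonempty)
    (bI : I ⊆ range m) (bJ : J ⊆ range m) (h : f I = f J) {j : ℕ} (hjJ : j ∈ J) (hjI : j ∉ I) :
    f (J.biUnion (s0 j)) = f (J.biUnion (s1 j)) := by
  have hjm := mem_range.1 (bJ hjJ)
  have h0 := mv hH hI ⟨j, hjJ⟩ bI bJ h (s0_isB j) (fun l hl => (s_bound j).2.1 l hl (by omega))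
  have h1 := mv hH hI ⟨j, hjJ⟩ bI bJ h (s1_isB j) (fun l hl => (s_bound j).2.2.1 l hl (by omega))
  rw [← h0, ← h1, s01_of_notMem hjI]

theorem left (hH : Hom (m + 3) (2 * m + 8) f) {I J : Finset ℕ} (hI : I.Nonempty)
    (bI : I ⊆ range m) (bJ : J ⊆ range m) (h : f I = f J) {j : ℕ} (hjJ : j ∈ J) (hjI : j ∉ I) :
    f (J.biUnion (s2 j)) = f (J.biUnion (s1 j)) := by
  have hjm := mem_range.1 (bJ hjJ)
  have h0 := mv hH hI ⟨j, hjJ⟩ bI bJ h (s2_isB j) (fun l hl => (s_bound j).2.2.2 l hl (by omega))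
  have h1 := mv hH hI ⟨j, hjJ⟩ bI bJ h (s1_isB j) (fun l hl => (s_bound j).2.2.1 l hl (by omega))
  rw [← h0, ← h1, s21_of_notMem hjI]

/-- the part of `J` up to `j` -/
def lo (J : Finset ℕ) (j : ℕ) : Finset ℕ := J.filter (fun l => l ≤ j)

/-- the part of `J` after `j`, shifted -/
def hi (J : Finset ℕ) (j : ℕ) : Finset ℕ := (J.filter (fun l => j < l)).image (fun l => l + 1)

theorem s0_split (J : Finset ℕ) (j : ℕ) : J.biUnion (s0 j) = lo J j ∪ hi J j := by
  ext x
  simp only [mem_biUnion, s0, lo, hi, mem_union, mem_filter, mem_image]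
  constructor
  · rintro ⟨l, hl, hx⟩
    split_ifs at hx with h1
    · rw [mem_singleton] at hx
      subst hx
      exact Or.inl ⟨hl, h1⟩
    · rw [mem_singleton] at hx
      exact Or.inr ⟨l, ⟨hl, by omega⟩, hx.symm⟩
  · rintro (⟨h1, h2⟩ | ⟨l, ⟨h1, h2⟩, h3⟩)
    · exact ⟨x, h1, by rw [if_pos h2]; exact mem_singleton_self _⟩
    · exact ⟨l, h1, by rw [if_neg (by omega)]; exact mem_singleton.2 h3.symm⟩

theorem s1_split {J : Finset ℕ} {j : ℕ} (hj : j ∈ J) :
    J.biUnion (s1 j) = lo J j ∪ ({j + 1} ∪ hi J j) := by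
  ext x
  simp only [mem_biUnion, s1, lo, hi, mem_union, mem_filter, mem_image]
  constructor
  · rintro ⟨l, hl, hx⟩
    split_ifs at hx with h1 h2
    · rw [mem_singleton] at hx
      subst hx
      exact Or.inl ⟨hl, h1.le⟩
    · rw [mem_insert, mem_singleton] at hx
      rcases hx with rfl | rfl
      · exact Or.inl ⟨hj, le_rfl⟩
      · exact Or.inr (Or.inl (mem_singleton_self _))
    · rw [mem_singleton] at hx
      exact Or.inr (Or.inr ⟨l, ⟨hl, by omega⟩, hx.symm⟩)
  · rintro (⟨h1, h2⟩ | h1 | ⟨l, ⟨h1, h2⟩, h3⟩)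
    · rcases h2.lt_or_eq with h3 | h3
      · exact ⟨x, h1, by rw [if_pos h3]; exact mem_singleton_self _⟩
      · exact ⟨x, h1, by
          rw [if_neg (by omega), if_pos h3, mem_insert]
          exact Or.inl h3⟩
    · rw [mem_singleton] at h1
      exact ⟨j, hj, by
        rw [if_neg (lt_irrefl j), if_pos rfl, mem_insert, mem_singleton]
        exact Or.inr h1⟩
    · exact ⟨l, h1, by
        rw [if_neg (by omega), if_neg (by omega)]
        exact mem_singleton.2 h3.symm⟩

theorem lo_facts {J : Finset ℕ} {j : ℕ} (bJ : J ⊆ range m) (hj : j ∈ J) :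
    (lo J j).Nonempty ∧ Lt (lo J j) {j + 1} ∧ lo J j ⊆ range (m + 2) ∧
      ({j + 1} : Finset ℕ) ⊆ range (m + 2) ∧ Lt {j + 1} (hi J j) ∧ hi J j ⊆ range (m + 2) := by
  have hjm := mem_range.1 (bJ hj)
  refine ⟨⟨j, mem_filter.2 ⟨hj, le_rfl⟩⟩, ?_, ?_, ?_, ?_, ?_⟩
  · intro x hx y hy
    rw [mem_singleton] at hy
    have := (mem_filter.1 hx).2
    omega
  · intro x hx
    have := mem_range.1 (bJ (mem_filter.1 hx).1)
    rw [mem_range]
    omega
  · intro x hx
    rw [mem_singleton] at hx
    rw [mem_range]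
    omega
  · intro x hx y hy
    rw [mem_singleton] at hx
    obtain ⟨l, hl, rfl⟩ := mem_image.1 hy
    have := (mem_filter.1 hl).2
    omega
  · intro x hx
    obtain ⟨l, hl, rfl⟩ := mem_image.1 hx
    have := mem_range.1 (bJ (mem_filter.1 hl).1)
    rw [mem_range]
    omega

/-- `f X = f (X ∪ Y)` for all blocks `X < Y` -/
def PA (m : ℕ) (f : Finset ℕ → A) : Prop := ∀ X Y : Finset ℕ, X.Nonempty → Y.Nonempty → Lt X Y →
  X ⊆ range (m + 2) → Y ⊆ range (m + 2) → f X = f (X ∪ Y)

def PB (m : ℕ) (f : Finset ℕ → A) : Prop := ∀ X Y : Finset ℕ, X.Nonempty → Y.Nonempty → Lt X Y →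
  X ⊆ range (m + 2) → Y ⊆ range (m + 2) → f Y = f (X ∪ Y)

def PC (m : ℕ) (f : Finset ℕ → A) : Prop := ∀ X Y Z : Finset ℕ, X.Nonempty → Y.Nonempty →
  Z.Nonempty → Lt X Y → Lt Y Z → X ⊆ range (m + 2) → Y ⊆ range (m + 2) → Z ⊆ range (m + 2) →
    f (X ∪ Z) = f (X ∪ (Y ∪ Z))

theorem pa_of (hH : Hom (m + 3) (2 * m + 8) f) {X Y : Finset ℕ}
    (hX : X.Nonempty) (hY : Y.Nonempty) (hXY : Lt X Y) (bX : X ⊆ range (m + 2))
    (bY : Y ⊆ range (m + 2)) (h : f X = f (X ∪ Y)) : PA m f :=
  fun _ _ h1 h2 h3 h4 h5 => all_a hH hX hY hXY bX bY h1 h2 h3 h4 h5 h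

theorem pb_of (hH : Hom (m + 3) (2 * m + 8) f) {X Y : Finset ℕ}
    (hX : X.Nonempty) (hY : Y.Nonempty) (hXY : Lt X Y) (bX : X ⊆ range (m + 2))
    (bY : Y ⊆ range (m + 2)) (h : f Y = f (X ∪ Y)) : PB m f :=
  fun _ _ h1 h2 h3 h4 h5 => all_b hH hX hY hXY bX bY h1 h2 h3 h4 h5 h

theorem pc_of (hH : Hom (m + 3) (2 * m + 8) f) {X Y Z : Finset ℕ}
    (hX : X.Nonempty) (hY : Y.Nonempty) (hZ : Z.Nonempty) (hXY : Lt X Y) (hYZ : Lt Y Z)
    (bX : X ⊆ range (m + 2)) (bY : Y ⊆ range (m + 2)) (bZ : Z ⊆ range (m + 2))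
    (h : f (X ∪ Z) = f (X ∪ (Y ∪ Z))) : PC m f :=
  fun _ _ _ h1 h2 h3 h4 h5 h6 h7 h8 => all_c hH hX hY hZ hXY hYZ bX bY bZ h1 h2 h3 h4 h5 h6 h7 h8 h

/-- if two different sets have the same value, the type is `c` or `a` -/
theorem ca_of_eq (hH : Hom (m + 3) (2 * m + 8) f) {I J : Finset ℕ} (hI : I.Nonempty)
    (bI : I ⊆ range m) (bJ : J ⊆ range m) (h : f I = f J) {j : ℕ} (hjJ : j ∈ J) (hjI : j ∉ I) :
    ((hi J j).Nonempty → PC m f) ∧ (¬ (hi J j).Nonempty → PA m f) := by
  have h1 := right hH hI bI bJ h hjJ hjI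
  obtain ⟨f1, f2, f3, f4, f5, f6⟩ := lo_facts (m := m) bJ hjJ
  rw [s0_split, s1_split hjJ] at h1
  constructor
  · intro h2
    exact pc_of hH f1 (singleton_nonempty _) h2 f2 f5 f3 f4 f6 h1
  · intro h2
    rw [not_nonempty_iff_eq_empty] at h2
    rw [h2, union_empty, union_empty] at h1
    exact pa_of hH f1 (singleton_nonempty _) f2 f3 f4 h1

theorem pc_of_pa (ha : PA m f) : PC m f := by
  intro X Y Z hX hY hZ hXY hYZ bX bY bZ
  have hXZ : Lt X Z := by
    intro i hi j hj
    obtain ⟨y, hy⟩ := hY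
    exact (hXY i hi y hy).trans (hYZ y hy j hj)
  rw [← ha X Z hX hZ hXZ bX bZ]
  refine ha X (Y ∪ Z) hX (hY.mono subset_union_left) ?_ bX (union_subset bY bZ)
  intro i hi j hj
  rcases mem_union.1 hj with h | h
  · exact hXY i hi j h
  · exact hXZ i hi j h

/-- if two different sets have the same value, then `c` -/
theorem pc_of_ne (hH : Hom (m + 3) (2 * m + 8) f) {I J : Finset ℕ} (hI : I.Nonempty)
    (hJ : J.Nonempty) (bI : I ⊆ range m) (bJ : J ⊆ range m) (h : f I = f J) (hne : I ≠ J) :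
    PC m f := by
  have key : ∀ {I J : Finset ℕ}, I.Nonempty → I ⊆ range m → J ⊆ range m → f I = f J →
      ∀ j ∈ J, j ∉ I → PC m f := by
    intro I J hI bI bJ h j hj hj'
    obtain ⟨h1, h2⟩ := ca_of_eq hH hI bI bJ h hj hj'
    by_cases h3 : (hi J j).Nonempty
    · exact h1 h3
    · exact pc_of_pa (h2 h3)
  by_cases h1 : J ⊆ I
  · have h2 : ¬ I ⊆ J := fun h2 => hne (Subset.antisymm h2 h1)
    rw [Finset.not_subset] at h2
    obtain ⟨j, hj, hj'⟩ := h2
    exact key hJ bJ bI h.symm j hj hj'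
  · rw [Finset.not_subset] at h1
    obtain ⟨j, hj, hj'⟩ := h1
    exact key hI bI bJ h j hj hj'

/-- if not `a`, the value determines the maximum -/
theorem max_of_eq (hH : Hom (m + 3) (2 * m + 8) f) (ha : ¬ PA m f) {I J : Finset ℕ}
    (hI : I.Nonempty) (hJ : J.Nonempty) (bI : I ⊆ range m) (bJ : J ⊆ range m) (h : f I = f J) :
    I.max = J.max := by
  have key : ∀ {I J : Finset ℕ} (hI : I.Nonempty) (hJ : J.Nonempty), I ⊆ range m → J ⊆ range m →
      f I = f J → ¬ I.max' hI < J.max' hJ := by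
    intro I J hI hJ bI bJ h hlt
    have h1 : J.max' hJ ∉ I := fun h2 => absurd (I.le_max' _ h2) (not_le.2 hlt)
    refine ha ((ca_of_eq hH hI bI bJ h (J.max'_mem hJ) h1).2 ?_)
    rintro ⟨x, hx⟩
    obtain ⟨l, hl, rfl⟩ := mem_image.1 hx
    have h2 := J.le_max' l (mem_filter.1 hl).1
    have h3 := (mem_filter.1 hl).2
    omega
  have h1 := key hI hJ bI bJ h
  have h2 := key hJ hI bJ bI h.symm
  rw [← Finset.coe_max' hI, ← Finset.coe_max' hJ]
  congr 1
  omega

/-- if not `b`, the value determines the minimum -/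
theorem min_of_eq (hH : Hom (m + 3) (2 * m + 8) f) (hb : ¬ PB m f) {I J : Finset ℕ}
    (hI : I.Nonempty) (hJ : J.Nonempty) (bI : I ⊆ range m) (bJ : J ⊆ range m) (h : f I = f J) :
    I.min = J.min := by
  have key : ∀ {I J : Finset ℕ} (hI : I.Nonempty) (hJ : J.Nonempty), I ⊆ range m → J ⊆ range m →
      f I = f J → ¬ J.min' hJ < I.min' hI := by
    intro I J hI hJ bI bJ h hlt
    obtain ⟨j, hjdef⟩ : ∃ j, j = J.min' hJ := ⟨_, rfl⟩
    have hjJ : j ∈ J := by rw [hjdef]; exact J.min'_mem hJ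
    have h1 : j ∉ I := fun h2 => absurd (I.min'_le _ h2) (not_le.2 (hjdef ▸ hlt))
    have h2 := left hH hI bI bJ h hjJ h1
    have hge : ∀ l ∈ J, j ≤ l := fun l hl => by rw [hjdef]; exact J.min'_le l hl
    have h3 : J.biUnion (s2 j) = J.image (fun l => l + 1) := by
      ext x
      simp only [mem_biUnion, mem_image, s2]
      constructor
      · rintro ⟨l, hl, hx⟩
        rw [if_neg (not_lt.2 (hge l hl)), mem_singleton] at hx
        exact ⟨l, hl, hx.symm⟩
      · rintro ⟨l, hl, rfl⟩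
        exact ⟨l, hl, by rw [if_neg (not_lt.2 (hge l hl))]; exact mem_singleton_self _⟩
    have h4 : J.biUnion (s1 j) = {j} ∪ J.image (fun l => l + 1) := by
      ext x
      simp only [mem_biUnion, mem_image, s1, mem_union, mem_singleton]
      constructor
      · rintro ⟨l, hl, hx⟩
        rw [if_neg (not_lt.2 (hge l hl))] at hx
        split_ifs at hx with h5
        · rw [mem_insert, mem_singleton] at hx
          rcases hx with hx | hx
          · exact Or.inl hx
          · exact Or.inr ⟨j, hjJ, hx.symm⟩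
        · rw [mem_singleton] at hx
          exact Or.inr ⟨l, hl, hx.symm⟩
      · rintro (rfl | ⟨l, hl, rfl⟩)
        · exact ⟨x, hjJ, by simp⟩
        · by_cases h5 : l = j
          · subst h5
            exact ⟨l, hl, by simp⟩
          · refine ⟨l, hl, ?_⟩
            rw [if_neg (not_lt.2 (hge l hl)), if_neg h5]
            exact mem_singleton_self _
    rw [h3, h4] at h2
    have hjm := mem_range.1 (bJ hjJ)
    refine hb (pb_of hH (X := {j}) (Y := J.image (fun l => l + 1)) (singleton_nonempty _)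
      (hJ.image _) ?_ ?_ ?_ h2)
    · intro x hx y hy
      rw [mem_singleton] at hx
      obtain ⟨l, hl, rfl⟩ := mem_image.1 hy
      have := hge l hl
      omega
    · intro x hx
      rw [mem_singleton] at hx
      rw [mem_range]
      omega
    · intro x hx
      obtain ⟨l, hl, rfl⟩ := mem_image.1 hx
      have := mem_range.1 (bJ hl)
      rw [mem_range]
      omega
  have h1 := key hI hJ bI bJ h
  have h2 := key hJ hI bJ bI h.symm
  rw [← Finset.coe_min' hI, ← Finset.coe_min' hJ]
  congr 1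
  omega

end

/-- the five canonical types on the nonempty subsets of `range m` -/
def Canon5 (m : ℕ) (f : Finset ℕ → A) : Prop :=
  (∀ I J : Finset ℕ, I.Nonempty → J.Nonempty → I ⊆ range m → J ⊆ range m → f I = f J) ∨
  (∀ I J : Finset ℕ, I.Nonempty → J.Nonempty → I ⊆ range m → J ⊆ range m →
    (f I = f J ↔ I.min = J.min)) ∨
  (∀ I J : Finset ℕ, I.Nonempty → J.Nonempty → I ⊆ range m → J ⊆ range m →
    (f I = f J ↔ I.max = J.max)) ∨
  (∀ I J : Finset ℕ, I.Nonempty → J.Nonempty → I ⊆ range m → J ⊆ range m →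
    (f I = f J ↔ I.min = J.min ∧ I.max = J.max)) ∨
  (∀ I J : Finset ℕ, I.Nonempty → J.Nonempty → I ⊆ range m → J ⊆ range m → (f I = f J ↔ I = J))

section

variable {m : ℕ} {f : Finset ℕ → A}

/-- under `a`, the value is the value at the minimum -/
theorem a_min (ha : PA m f) {I : Finset ℕ} (hI : I.Nonempty) (bI : I ⊆ range m) :
    f I = f {I.min' hI} := by
  by_cases h : (I.erase (I.min' hI)).Nonempty
  · have h1 := ha {I.min' hI} (I.erase (I.min' hI)) (singleton_nonempty _) h ?_ ?_ ?_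
    · rw [h1]
      congr 1
      ext x
      rw [mem_union, mem_singleton, mem_erase]
      constructor
      · intro hx
        by_cases h2 : x = I.min' hI
        · exact Or.inl h2
        · exact Or.inr ⟨h2, hx⟩
      · rintro (rfl | h2)
        · exact I.min'_mem hI
        · exact h2.2
    · intro x hx y hy
      rw [mem_singleton] at hx
      rw [mem_erase] at hy
      have := I.min'_le y hy.2
      have := hy.1
      omega
    · intro x hx
      rw [mem_singleton] at hx
      have := mem_range.1 (bI (I.min'_mem hI))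
      rw [mem_range]
      omega
    · intro x hx
      have := mem_range.1 (bI (mem_erase.1 hx).2)
      rw [mem_range]
      omega
  · rw [not_nonempty_iff_eq_empty] at h
    congr 1
    ext x
    rw [mem_singleton]
    constructor
    · intro hx
      by_contra h2
      have : x ∈ I.erase (I.min' hI) := mem_erase.2 ⟨h2, hx⟩
      rw [h] at this
      exact absurd this (notMem_empty _)
    · rintro rfl
      exact I.min'_mem hI

theorem b_max (hb : PB m f) {I : Finset ℕ} (hI : I.Nonempty) (bI : I ⊆ range m) :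
    f I = f {I.max' hI} := by
  by_cases h : (I.erase (I.max' hI)).Nonempty
  · have h1 := hb (I.erase (I.max' hI)) {I.max' hI} h (singleton_nonempty _) ?_ ?_ ?_
    · rw [h1]
      congr 1
      ext x
      rw [mem_union, mem_singleton, mem_erase]
      constructor
      · intro hx
        by_cases h2 : x = I.max' hI
        · exact Or.inr h2
        · exact Or.inl ⟨h2, hx⟩
      · rintro (h2 | rfl)
        · exact h2.2
        · exact I.max'_mem hI
    · intro x hx y hy
      rw [mem_singleton] at hy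
      rw [mem_erase] at hx
      have := I.le_max' x hx.2
      have := hx.1
      omega
    · intro x hx
      have := mem_range.1 (bI (mem_erase.1 hx).2)
      rw [mem_range]
      omega
    · intro x hx
      rw [mem_singleton] at hx
      have := mem_range.1 (bI (I.max'_mem hI))
      rw [mem_range]
      omega
  · rw [not_nonempty_iff_eq_empty] at h
    congr 1
    ext x
    rw [mem_singleton]
    constructor
    · intro hx
      by_contra h2
      have : x ∈ I.erase (I.max' hI) := mem_erase.2 ⟨h2, hx⟩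
      rw [h] at this
      exact absurd this (notMem_empty _)
    · rintro rfl
      exact I.max'_mem hI

theorem c_minmax (hc : PC m f) {I : Finset ℕ} (hI : I.Nonempty) (bI : I ⊆ range m) :
    f I = f {I.min' hI, I.max' hI} := by
  obtain ⟨a, ha⟩ : ∃ a, a = I.min' hI := ⟨_, rfl⟩
  obtain ⟨b, hb⟩ : ∃ b, b = I.max' hI := ⟨_, rfl⟩
  have haI : a ∈ I := ha ▸ I.min'_mem hI
  have hbI : b ∈ I := hb ▸ I.max'_mem hI
  have hle : ∀ x ∈ I, a ≤ x := fun x hx => ha ▸ I.min'_le x hx
  have hge : ∀ x ∈ I, x ≤ b := fun x hx => hb ▸ I.le_max' x hx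
  rw [← ha, ← hb]
  obtain ⟨Y, hY⟩ : ∃ Y, Y = (I.erase a).erase b := ⟨_, rfl⟩
  have hmemY : ∀ x, x ∈ Y ↔ x ≠ b ∧ x ≠ a ∧ x ∈ I := by
    intro x
    rw [hY, mem_erase, mem_erase]
  have hIY : I = {a} ∪ (Y ∪ {b}) := by
    ext x
    rw [mem_union, mem_union, mem_singleton, mem_singleton, hmemY]
    constructor
    · intro hx
      by_cases h1 : x = a
      · exact Or.inl h1
      · by_cases h2 : x = b
        · exact Or.inr (Or.inr h2)
        · exact Or.inr (Or.inl ⟨h2, h1, hx⟩)
    · rintro (rfl | h | rfl)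
      · exact haI
      · exact h.2.2
      · exact hbI
  by_cases h : Y.Nonempty
  · have h1 := hc {a} Y {b} (singleton_nonempty _) h (singleton_nonempty _) ?_ ?_ ?_ ?_ ?_
    · rw [← hIY] at h1
      rw [← h1]
      congr 1
    · intro x hx y hy
      rw [mem_singleton] at hx
      have h2 := (hmemY y).1 hy
      have h3 := hle y h2.2.2
      have h4 := h2.2.1
      omega
    · intro x hx y hy
      rw [mem_singleton] at hy
      have h2 := (hmemY x).1 hx
      have h3 := hge x h2.2.2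
      have h4 := h2.1
      omega
    · intro x hx
      rw [mem_singleton] at hx
      have := mem_range.1 (bI haI)
      rw [mem_range]
      omega
    · intro x hx
      have := mem_range.1 (bI ((hmemY x).1 hx).2.2)
      rw [mem_range]
      omega
    · intro x hx
      rw [mem_singleton] at hx
      have := mem_range.1 (bI hbI)
      rw [mem_range]
      omega
  · rw [not_nonempty_iff_eq_empty] at h
    rw [h, empty_union] at hIY
    conv_lhs => rw [hIY]
    congr 1

/-- **The canonical theorem.** -/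
theorem canon (hH : Hom (m + 3) (2 * m + 8) f) : Canon5 m f := by
  have hmin : ∀ {I J : Finset ℕ} (hI : I.Nonempty) (hJ : J.Nonempty), I.min = J.min →
      I.min' hI = J.min' hJ := by
    intro I J hI hJ h
    rw [← Finset.coe_min' hI, ← Finset.coe_min' hJ] at h
    exact_mod_cast h
  have hmax : ∀ {I J : Finset ℕ} (hI : I.Nonempty) (hJ : J.Nonempty), I.max = J.max →
      I.max' hI = J.max' hJ := by
    intro I J hI hJ h
    rw [← Finset.coe_max' hI, ← Finset.coe_max' hJ] at h
    exact_mod_cast h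
  by_cases hc : PC m f
  · by_cases ha : PA m f
    · by_cases hb : PB m f
      · -- constant
        left
        have key : ∀ I : Finset ℕ, I.Nonempty → I ⊆ range m → f I = f {m} := by
          intro I hI bI
          have hlt : Lt I {m} := by
            intro x hx y hy
            rw [mem_singleton] at hy
            have := mem_range.1 (bI hx)
            omega
          have b1 : I ⊆ range (m + 2) := fun x hx => by
            have := mem_range.1 (bI hx)
            rw [mem_range]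
            omega
          have b2 : ({m} : Finset ℕ) ⊆ range (m + 2) := fun x hx => by
            rw [mem_singleton] at hx
            rw [mem_range]
            omega
          rw [ha I {m} hI (singleton_nonempty _) hlt b1 b2,
            ← hb I {m} hI (singleton_nonempty _) hlt b1 b2]
        intro I J hI hJ bI bJ
        rw [key I hI bI, key J hJ bJ]
      · right; left
        intro I J hI hJ bI bJ
        refine ⟨min_of_eq hH hb hI hJ bI bJ, fun h => ?_⟩
        rw [a_min ha hI bI, a_min ha hJ bJ, hmin hI hJ h]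
    · by_cases hb : PB m f
      · right; right; left
        intro I J hI hJ bI bJ
        refine ⟨max_of_eq hH ha hI hJ bI bJ, fun h => ?_⟩
        rw [b_max hb hI bI, b_max hb hJ bJ, hmax hI hJ h]
      · right; right; right; left
        intro I J hI hJ bI bJ
        refine ⟨fun h => ⟨min_of_eq hH hb hI hJ bI bJ h, max_of_eq hH ha hI hJ bI bJ h⟩,
          fun h => ?_⟩
        rw [c_minmax hc hI bI, c_minmax hc hJ bJ, hmin hI hJ h.1, hmax hI hJ h.2]
  · right; right; right; right
    intro I J hI hJ bI bJ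
    refine ⟨fun h => ?_, fun h => by rw [h]⟩
    by_contra hne
    exact hc (pc_of_ne hH hI hJ bI bJ h hne)

end

end Pool.Agent.Run7.h429.TG
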