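import Pool.Agent.Run7.h429.TG.Canon

set_option autoImplicit false

/-! Functions which take no value often are injective on the sums. -/

namespace Pool.Agent.Run7.h429.TG

open Finset

variable {A : Type*}

theorem Canon5.mono {m M : ℕ} (h : m ≤ M) {f : Finset ℕ → A} (hf : Canon5 M f) : Canon5 m f := by
  have hs : range m ⊆ range M := range_subset_range.2 h
  rcases hf with hf | hf | hf | hf | hf
  · exact Or.inl fun I J hI hJ bI bJ => hf I J hI hJ (bI.trans hs) (bJ.trans hs)
  · exact Or.inr (Or.inl fun I J hI hJ bI bJ => hf I J hI hJ (bI.trans hs) (bJ.trans hs))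
  · exact Or.inr (Or.inr (Or.inl fun I J hI hJ bI bJ => hf I J hI hJ (bI.trans hs) (bJ.trans hs)))
  · exact Or.inr (Or.inr (Or.inr (Or.inl
      fun I J hI hJ bI bJ => hf I J hI hJ (bI.trans hs) (bJ.trans hs))))
  · exact Or.inr (Or.inr (Or.inr (Or.inr
      fun I J hI hJ bI bJ => hf I J hI hJ (bI.trans hs) (bJ.trans hs))))

/-- functions with the same equalities are of the same type -/
theorem Canon5.congr {B : Type*} {m : ℕ} {f : Finset ℕ → A} {g : Finset ℕ → B} (hf : Canon5 m f)
    (h : ∀ I J : Finset ℕ, I ⊆ range m → J ⊆ range m → (f I = f J ↔ g I = g J)) : Canon5 m g := by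
  rcases hf with hf | hf | hf | hf | hf
  · exact Or.inl fun I J hI hJ bI bJ => (h I J bI bJ).1 (hf I J hI hJ bI bJ)
  · exact Or.inr (Or.inl fun I J hI hJ bI bJ => (h I J bI bJ).symm.trans (hf I J hI hJ bI bJ))
  · exact Or.inr (Or.inr (Or.inl fun I J hI hJ bI bJ =>
      (h I J bI bJ).symm.trans (hf I J hI hJ bI bJ)))
  · exact Or.inr (Or.inr (Or.inr (Or.inl
      fun I J hI hJ bI bJ => (h I J bI bJ).symm.trans (hf I J hI hJ bI bJ))))
  · exact Or.inr (Or.inr (Or.inr (Or.inr
      fun I J hI hJ bI bJ => (h I J bI bJ).symm.trans (hf I J hI hJ bI bJ))))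

/-- `{0, j, M - 1}` -/
def tr (M j : ℕ) : Finset ℕ := {0, j + 1, M - 1}

theorem tr_min (M j : ℕ) : (tr M j).min = ((0 : ℕ) : WithTop ℕ) := by
  refine le_antisymm (min_le (by simp [tr])) ?_
  rw [Finset.le_min_iff]
  intro x _
  exact WithTop.coe_le_coe.2 (Nat.zero_le x)

theorem tr_max {M j : ℕ} (hj : j + 1 < M) : (tr M j).max = ((M - 1 : ℕ) : WithBot ℕ) := by
  refine le_antisymm ?_ (le_max (by simp [tr]))
  rw [Finset.max_le_iff]
  intro x hx
  simp only [tr, mem_insert, mem_singleton] at hx
  have : x ≤ M - 1 := by omega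
  exact WithBot.coe_le_coe.2 this

/-- a canonical function which is not injective takes a value at all the sets `{0, j, M - 1}` -/
theorem inj_or {M : ℕ} {f : Finset ℕ → A} (hf : Canon5 M f) :
    (∀ I J : Finset ℕ, I.Nonempty → J.Nonempty → I ⊆ range M → J ⊆ range M → (f I = f J → I = J)) ∨
    ∀ j j', j + 1 < M → j' + 1 < M → f (tr M j) = f (tr M j') := by
  have hne : ∀ j, (tr M j).Nonempty := fun j => ⟨0, by simp [tr]⟩
  have hsub : ∀ j, j + 1 < M → tr M j ⊆ range M := by
    intro j hj x hx
    simp only [tr, mem_insert, mem_singleton] at hx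
    rw [mem_range]
    omega
  rcases hf with hf | hf | hf | hf | hf
  · exact Or.inr fun j j' hj hj' => hf _ _ (hne j) (hne j') (hsub j hj) (hsub j' hj')
  · refine Or.inr fun j j' hj hj' => (hf _ _ (hne j) (hne j') (hsub j hj) (hsub j' hj')).2 ?_
    rw [tr_min, tr_min]
  · refine Or.inr fun j j' hj hj' => (hf _ _ (hne j) (hne j') (hsub j hj) (hsub j' hj')).2 ?_
    rw [tr_max hj, tr_max hj']
  · refine Or.inr fun j j' hj hj' => (hf _ _ (hne j) (hne j') (hsub j hj) (hsub j' hj')).2 ?_
    rw [tr_min, tr_min, tr_max hj, tr_max hj']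
    exact ⟨rfl, rfl⟩
  · exact Or.inl fun I J hI hJ bI bJ => (hf I J hI hJ bI bJ).1

/-- positive numbers with a canonical sum function have distinct subset sums -/
theorem sums_inj {M : ℕ} (hM : 4 ≤ M) {w : ℕ → ℤ} (hw : ∀ i < M, 0 < w i)
    (hf : Canon5 M (fun I => ∑ i ∈ I, w i)) (I J : Finset ℕ) (hI : I.Nonempty) (hJ : J.Nonempty)
    (bI : I ⊆ range M) (bJ : J ⊆ range M) (h : ∑ i ∈ I, w i = ∑ i ∈ J, w i) : I = J := by
  rcases hf with hf | hf | hf | hf | hf
  · have h1 := hf {0} {0, 1} (by simp) (by simp) (by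
      intro x hx
      rw [mem_singleton] at hx
      rw [mem_range]
      omega) (by
      intro x hx
      rw [mem_insert, mem_singleton] at hx
      rw [mem_range]
      omega)
    simp only [sum_singleton] at h1
    rw [sum_insert (by simp), sum_singleton] at h1
    have := hw 1 (by omega)
    omega
  · have h1 := (hf {0} {0, 1} (by simp) (by simp) (by
      intro x hx
      rw [mem_singleton] at hx
      rw [mem_range]
      omega) (by
      intro x hx
      rw [mem_insert, mem_singleton] at hx
      rw [mem_range]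
      omega)).2 (by decide)
    simp only [sum_singleton] at h1
    rw [sum_insert (by simp), sum_singleton] at h1
    have := hw 1 (by omega)
    omega
  · have h1 := (hf {1} {0, 1} (by simp) (by simp) (by
      intro x hx
      rw [mem_singleton] at hx
      rw [mem_range]
      omega) (by
      intro x hx
      rw [mem_insert, mem_singleton] at hx
      rw [mem_range]
      omega)).2 (by decide)
    simp only [sum_singleton] at h1
    rw [sum_insert (by simp), sum_singleton] at h1
    have := hw 0 (by omega)
    omega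
  · have h1 := (hf {0, 2} {0, 1, 2} (by simp) (by simp) (by
      intro x hx
      rw [mem_insert, mem_singleton] at hx
      rw [mem_range]
      omega) (by
      intro x hx
      rw [mem_insert, mem_insert, mem_singleton] at hx
      rw [mem_range]
      omega)).2 (by decide)
    simp only at h1
    rw [sum_insert (by simp), sum_singleton, sum_insert (by simp), sum_insert (by simp),
      sum_singleton] at h1
    have := hw 1 (by omega)
    omega
  · exact (hf I J hI hJ bI bJ).1 h

/-- **Rainbow version.** -/
theorem rainbow {m t M : ℕ} (hM : M = m + t + 4) {w : ℕ → ℤ} (hw : ∀ i < M, 0 < w i)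
    (hid : Canon5 M (fun I => ∑ i ∈ I, w i)) (F : ℤ → A)
    (hF : Canon5 M (fun I => F (∑ i ∈ I, w i)))
    (ht : ∀ S : Finset ℤ, (∀ a ∈ S, ∀ b ∈ S, F a = F b) → S.card ≤ t) (I J : Finset ℕ)
    (hI : I.Nonempty) (hJ : J.Nonempty) (bI : I ⊆ range M) (bJ : J ⊆ range M)
    (h : F (∑ i ∈ I, w i) = F (∑ i ∈ J, w i)) : I = J := by
  classical
  rcases inj_or hF with h1 | h1
  · exact h1 I J hI hJ bI bJ h
  · exfalso
    have hinj : Set.InjOn (fun j => ∑ i ∈ tr M j, w i) (range (t + 1) : Finset ℕ) := by
      intro j hj j' hj' he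
      rw [mem_coe, mem_range] at hj hj'
      have h2 : tr M j = tr M j' := by
        refine sums_inj (by omega) hw hid _ _ ⟨0, by simp [tr]⟩ ⟨0, by simp [tr]⟩ ?_ ?_ he
        · intro x hx
          simp only [tr, mem_insert, mem_singleton] at hx
          rw [mem_range]
          omega
        · intro x hx
          simp only [tr, mem_insert, mem_singleton] at hx
          rw [mem_range]
          omega
      have h3 : j + 1 ∈ tr M j := by simp [tr]
      rw [h2] at h3
      simp only [tr, mem_insert, mem_singleton] at h3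
      omega
    have h2 := ht ((range (t + 1)).image (fun j => ∑ i ∈ tr M j, w i)) (by
      intro a ha b hb
      obtain ⟨j, hj, rfl⟩ := mem_image.1 ha
      obtain ⟨j', hj', rfl⟩ := mem_image.1 hb
      rw [mem_range] at hj hj'
      exact h1 j j' (by omega) (by omega))
    rw [card_image_of_injOn hinj, card_range] at h2
    omega

end Pool.Agent.Run7.h429.TG
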