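import Pool.Agent.Run7.h429.TG.Pat
import Pool.Agent.Run7.h429.TG.Rain
import Pool.Agent.Y898.MTC

set_option autoImplicit false

/-! The canonical finite unions theorem for consecutive prime gaps next to a record gap. -/

namespace Pool.Agent.Run7.h429.TG

open Finset Filter
open Pool.Agent.H256R2.SC (ff)
open Pool.Agent.Y898.PolyGaps (Cl cl_finite)

/-- the gap after the `i`-th prime -/
noncomputable def gp (i : ℕ) : ℤ := (Nat.nth Nat.Prime (i + 1) : ℤ) - Nat.nth Nat.Prime i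

theorem main (m L : ℕ) : ∃ c C : ℝ, 0 < c ∧ ∀ᶠ x : ℝ in atTop,
    ∀ H : ℝ, 1 ≤ H → H ≤ c * ff x → ∀ (A : Type) (F : Fin L → ℤ → A),
    x ^ (7 / 8 : ℝ) ≤ (Set.ncard {n : ℕ | 0 < n ∧ (Nat.nth Nat.Prime (n + m) : ℝ) ≤ x ∧
      c * ff x ≤ (Nat.nth Nat.Prime n : ℝ) - Nat.nth Nat.Prime (n - 1) ∧
      (∀ i < m, H ≤ (gp (n + i) : ℝ) ∧ (gp (n + i) : ℝ) ≤ C * H) ∧
      ∀ l, Canon5 m (fun I => F l (∑ i ∈ I, gp (n + i)))} : ℝ) := by
  obtain ⟨c, C, hc, -, h⟩ := Pool.Agent.Y898.MTC.mt_gaps (m + 3) (2 * m + 8) (nPat (m + 3) L)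
  refine ⟨c, C, hc, ?_⟩
  filter_upwards [h] with x hx H hH hHc A F
  refine (hx H hH hHc (fun a => Fintype.equivFin _ (pat F a))).trans ?_
  rw [Nat.cast_le]
  have hmono := Nat.nth_monotone Nat.infinite_setOfPred_prime
  refine Set.ncard_le_ncard ?_ ?_
  · rintro n ⟨h1, h2, h3, h4, col, h5⟩
    refine ⟨h1, ?_, h3, fun i hi => ?_, fun l => ?_⟩
    · refine le_trans ?_ h2
      exact_mod_cast hmono (by omega)
    · have h6 := h4 i (by omega)
      unfold gp
      push_cast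
      exact h6
    · have h6 := hom_of F _ col h5 l
      have h7 := canon (m := m) h6
      have h8 : ∀ I : Finset ℕ, I ⊆ range m → ∑ i ∈ I, ext0 (fun l : Fin (2 * m + 8) =>
          (Nat.nth Nat.Prime (n + l + 1) : ℤ) - Nat.nth Nat.Prime (n + l)) i =
            ∑ i ∈ I, gp (n + i) := by
        intro I hI
        refine sum_congr rfl fun i hi => ?_
        have := mem_range.1 (hI hi)
        unfold ext0 gp
        rw [dif_pos (by omega)]
      unfold Canon5 at h7 ⊢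
      simp only at h7 ⊢
      rcases h7 with h7 | h7 | h7 | h7 | h7
      · left
        intro I J hI hJ bI bJ
        rw [← h8 I bI, ← h8 J bJ]
        exact h7 I J hI hJ bI bJ
      · right; left
        intro I J hI hJ bI bJ
        rw [← h8 I bI, ← h8 J bJ]
        exact h7 I J hI hJ bI bJ
      · right; right; left
        intro I J hI hJ bI bJ
        rw [← h8 I bI, ← h8 J bJ]
        exact h7 I J hI hJ bI bJ
      · right; right; right; left
        intro I J hI hJ bI bJ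
        rw [← h8 I bI, ← h8 J bJ]
        exact h7 I J hI hJ bI bJ
      · right; right; right; right
        intro I J hI hJ bI bJ
        rw [← h8 I bI, ← h8 J bJ]
        exact h7 I J hI hJ bI bJ
  · refine (Set.finite_Iic ⌊x⌋₊).subset ?_
    rintro n ⟨-, h1, -⟩
    refine Nat.le_floor (le_trans ?_ h1)
    have h2 : n + m ≤ Nat.nth Nat.Prime (n + m) :=
      (Nat.nth_strictMono Nat.infinite_setOfPred_prime).le_apply
    exact_mod_cast (Nat.le_add_right n m).trans h2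

/-- the rainbow version -/
theorem main_rainbow (m L t : ℕ) : ∃ c C : ℝ, 0 < c ∧ ∀ᶠ x : ℝ in atTop,
    ∀ H : ℝ, 1 ≤ H → H ≤ c * ff x → ∀ (A : Type) (F : Fin L → ℤ → A),
    (∀ l, ∀ S : Finset ℤ, (∀ a ∈ S, ∀ b ∈ S, F l a = F l b) → S.card ≤ t) →
    x ^ (7 / 8 : ℝ) ≤ (Set.ncard {n : ℕ | 0 < n ∧ (Nat.nth Nat.Prime (n + m) : ℝ) ≤ x ∧
      c * ff x ≤ (Nat.nth Nat.Prime n : ℝ) - Nat.nth Nat.Prime (n - 1) ∧
      (∀ i < m, H ≤ (gp (n + i) : ℝ) ∧ (gp (n + i) : ℝ) ≤ C * H) ∧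
      ∀ l, ∀ I J : Finset ℕ, I.Nonempty → J.Nonempty → I ⊆ range m → J ⊆ range m →
        F l (∑ i ∈ I, gp (n + i)) = F l (∑ i ∈ J, gp (n + i)) → I = J} : ℝ) := by
  obtain ⟨M, hM⟩ : ∃ M, M = m + t + 4 := ⟨_, rfl⟩
  obtain ⟨c, C, hc, h⟩ := main M (L + 1)
  refine ⟨c, C, hc, ?_⟩
  filter_upwards [h] with x hx H hH hHc A F hF
  obtain ⟨G, hG⟩ : ∃ G : Fin (L + 1) → ℤ → A ⊕ ℤ, G = fun (l : Fin (L + 1)) (a : ℤ) =>
    if hl : (l : ℕ) < L then (Sum.inl (F ⟨l, hl⟩ a) : A ⊕ ℤ) else Sum.inr a := ⟨_, rfl⟩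
  refine (hx H hH hHc (A ⊕ ℤ) G).trans ?_
  rw [Nat.cast_le]
  have hmono := Nat.nth_monotone Nat.infinite_setOfPred_prime
  refine Set.ncard_le_ncard ?_ ?_
  · rintro n ⟨h1, h2, h3, h4, h5⟩
    refine ⟨h1, ?_, h3, fun i hi => h4 i (by omega), fun l I J hI hJ bI bJ he => ?_⟩
    · refine le_trans ?_ h2
      exact_mod_cast hmono (by omega)
    · have hs : range m ⊆ range M := range_subset_range.2 (by omega)
      have hpos : ∀ i < M, 0 < gp (n + i) := by
        intro i hi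
        have h6 := (h4 i hi).1
        have h7 : (0 : ℝ) < (gp (n + i) : ℝ) := by linarith
        exact_mod_cast h7
      have hid : Canon5 M (fun I => ∑ i ∈ I, gp (n + i)) := by
        have h6 := h5 ⟨L, Nat.lt_succ_self L⟩
        rw [hG] at h6
        simp only [lt_irrefl, dite_false] at h6
        refine Canon5.congr h6 fun I J _ _ => ?_
        exact Sum.inr_injective.eq_iff
      have hFl : Canon5 M (fun I => F l (∑ i ∈ I, gp (n + i))) := by
        have h6 := h5 ⟨l, by omega⟩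
        rw [hG] at h6
        simp only [l.2, dite_true] at h6
        refine Canon5.congr h6 fun I J _ _ => ?_
        exact Sum.inl_injective.eq_iff
      exact rainbow hM hpos hid (F l) hFl (hF l) I J hI hJ (bI.trans hs) (bJ.trans hs) he
  · refine (Set.finite_Iic ⌊x⌋₊).subset ?_
    rintro n ⟨-, h1, -⟩
    refine Nat.le_floor (le_trans ?_ h1)
    have h2 : n + m ≤ Nat.nth Nat.Prime (n + m) :=
      (Nat.nth_strictMono Nat.infinite_setOfPred_prime).le_apply
    exact_mod_cast (Nat.le_add_right n m).trans h2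

end Pool.Agent.Run7.h429.TG
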