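import Pool.Agent.Run7.h429.TG.Canon

set_option autoImplicit false

/-! From homogeneous colours of tuples of block sums to `Hom`. -/

namespace Pool.Agent.Run7.h429.TG

open Finset

variable {A : Type*}

/-- the sequence `v` extended by zero -/
def ext0 {N : ℕ} (v : Fin N → ℤ) (i : ℕ) : ℤ := if h : i < N then v ⟨i, h⟩ else 0

/-- the part of a set of numbers in `Fin N` -/
def toF (N : ℕ) (I : Finset ℕ) : Finset (Fin N) := univ.filter (fun i => i.val ∈ I)

theorem sum_toF {N : ℕ} {M : Type*} [AddCommMonoid M] {I : Finset ℕ} (bI : I ⊆ range N)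
    (g : ℕ → M) : ∑ i ∈ toF N I, g i.val = ∑ i ∈ I, g i := by
  refine sum_bij (fun i _ => i.val) ?_ ?_ ?_ ?_
  · intro a ha
    exact (mem_filter.1 ha).2
  · intro a _ b _ h
    exact Fin.ext h
  · intro b hb
    exact ⟨⟨b, mem_range.1 (bI hb)⟩, mem_filter.2 ⟨mem_univ _, hb⟩, rfl⟩
  · intro a _
    rfl

theorem sum_ext0 {N : ℕ} (v : Fin N → ℤ) {I : Finset ℕ} (bI : I ⊆ range N) :
    ∑ i ∈ toF N I, v i = ∑ i ∈ I, ext0 v i := by
  rw [← sum_toF bI (ext0 v)]
  refine sum_congr rfl fun i _ => ?_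
  unfold ext0
  rw [dif_pos i.2]

/-- the equality pattern of `F` on the sums of the subfamilies of `a` -/
noncomputable def pat {K L : ℕ} (F : Fin L → ℤ → A) (a : Fin K → ℤ) :
    Fin L → Finset (Finset (Fin K) × Finset (Fin K)) := by
  classical
  exact fun l => univ.filter (fun ST => F l (∑ t ∈ ST.1, a t) = F l (∑ t ∈ ST.2, a t))

theorem mem_pat {K L : ℕ} (F : Fin L → ℤ → A) (a : Fin K → ℤ) (l : Fin L)
    (S T : Finset (Fin K)) :
    (S, T) ∈ pat F a l ↔ F l (∑ t ∈ S, a t) = F l (∑ t ∈ T, a t) := by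
  classical
  unfold pat
  simp

/-- the number of patterns -/
def nPat (K L : ℕ) : ℕ := Fintype.card (Fin L → Finset (Finset (Fin K) × Finset (Fin K)))

theorem hom_of {K N L : ℕ} (F : Fin L → ℤ → A) (v : Fin N → ℤ)
    (col : Fin (nPat K L))
    (hcol : ∀ I : Fin K → Finset (Fin N), (∀ l, (I l).Nonempty) →
      (∀ l l', l < l' → ∀ i ∈ I l, ∀ j ∈ I l', i < j) →
      Fintype.equivFin _ (pat F (fun l => ∑ i ∈ I l, v i)) = col) (l : Fin L) :
    Hom K N (fun I => F l (∑ i ∈ I, ext0 v i)) := by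
  classical
  intro φ φ' hφ hφ' bφ bφ' S T _ _ bS bT h
  have key : ∀ φ : ℕ → Finset ℕ, IsB φ → (∀ l < K, φ l ⊆ range N) →
      Fintype.equivFin _ (pat F (fun t : Fin K => ∑ i ∈ φ t, ext0 v i)) = col := by
    intro φ hφ bφ
    have h1 := hcol (fun t => toF N (φ t)) (fun t => by
        obtain ⟨x, hx⟩ := hφ.1 t
        exact ⟨⟨x, mem_range.1 (bφ t t.2 hx)⟩, mem_filter.2 ⟨mem_univ _, hx⟩⟩)
      (fun t t' htt i hi j hj => by
        have h2 := hφ.2 t t' htt i (mem_filter.1 hi).2 j (mem_filter.1 hj).2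
        exact h2)
    have h2 : (fun t : Fin K => ∑ i ∈ toF N (φ t), v i) =
        fun t : Fin K => ∑ i ∈ φ t, ext0 v i := by
      funext t
      exact sum_ext0 v (bφ t t.2)
    rwa [h2] at h1
  have hpat : pat F (fun t : Fin K => ∑ i ∈ φ t, ext0 v i) =
      pat F (fun t : Fin K => ∑ i ∈ φ' t, ext0 v i) := by
    apply (Fintype.equivFin _).injective
    rw [key φ hφ bφ, key φ' hφ' bφ']
  have hsum : ∀ φ : ℕ → Finset ℕ, IsB φ → ∀ S : Finset ℕ, S ⊆ range K →
      ∑ t ∈ toF K S, ∑ i ∈ φ t, ext0 v i = ∑ i ∈ S.biUnion φ, ext0 v i := by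
    intro φ hφ S bS
    rw [sum_toF bS (fun t => ∑ i ∈ φ t, ext0 v i), sum_biUnion]
    intro i _ j _ hij
    rw [Function.onFun, Finset.disjoint_left]
    intro z hz hz'
    rcases lt_or_gt_of_ne hij with hlt | hlt
    · exact absurd (hφ.2 i j hlt z hz z hz') (lt_irrefl _)
    · exact absurd (hφ.2 j i hlt z hz' z hz) (lt_irrefl _)
  have h1 : (toF K S, toF K T) ∈ pat F (fun t : Fin K => ∑ i ∈ φ t, ext0 v i) l := by
    rw [mem_pat, hsum φ hφ S bS, hsum φ hφ T bT]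
    exact h
  rw [hpat, mem_pat, hsum φ' hφ' S bS, hsum φ' hφ' T bT] at h1
  exact h1

end Pool.Agent.Run7.h429.TG
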